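import Pool.Agent.Helper62.HX.Stm
import Pool.Agent.Helper62.BW.Frame

/-!
# H11: the soft Stepanov method for general families of hyperelliptic curves of even degree
-/

set_option autoImplicit false

open Polynomial Matrix Finset

namespace Pool.Agent.Helper36.HX

open Pool.Agent.Helper62.BM Pool.Agent.Helper62.BW Pool.Agent.Helper62.HX
open Pool.Agent.Helper36.BM (mon shift degree_shift mon_ode aeval_scaled)
open Pool.Agent.Helper12.BM (stepJ Jd Mm mon_ode' map_Mm natDegree_mon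
  Fc sum_Fc M0 ode_zero ι_inj two_neK)
open Pool.Agent.Helper62.BM.FG (cs Rm eval_Rm ode2)

section maps

variable {R S : Type} [CommRing R] [CommRing S] (ψ : R →+* S)

theorem map_bE (g : ℕ) (G : R[X]) (l : Fin (2 * g)) :
    (bE g G l).map ψ = bE g (G.map ψ) l := by
  unfold bE
  split_ifs
  · rw [Polynomial.map_pow, map_X]
  · rw [Polynomial.map_mul, Polynomial.map_pow, map_X]

theorem map_YE (p g : ℕ) (G F : R[X]) :
    (YE p g G F).map ψ = YE p g (G.map ψ) (F.map ψ) := by
  ext1 i l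
  rw [Matrix.map_apply, YE, Matrix.of_apply, YE, Matrix.of_apply, ← coeff_map, Polynomial.map_mul,
    Polynomial.map_pow, map_bE]

theorem map_QE (g : ℕ) (G H : R[X]) (m n : Fin (2 * g)) :
    ψ (QE g G H m n) = QE g (G.map ψ) (H.map ψ) m n := by
  unfold QE
  rw [Matrix.of_apply, Matrix.of_apply]
  split_ifs
  · rw [map_mul, map_sub, map_natCast, map_natCast, coeff_map]
  · rw [map_neg, map_mul, map_mul, map_ofNat, map_natCast, coeff_map]
  · rw [map_mul, map_mul, map_ofNat, map_natCast, coeff_map]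
  · rw [map_zero]

theorem map_F (G H : R[X]) : (G.map ψ) ^ 2 + H.map ψ = (G ^ 2 + H).map ψ := by
  rw [Polynomial.map_add, Polynomial.map_pow]

end maps

theorem map_relE {A B : Type} [CommRing A] [CommRing B] {g : ℕ} (φ : A →+* B) {G H : A[X][X]}
    {W : A[X]} {P S : Fin (2 * g) → A[X][X]} {M : Matrix (Fin (2 * g)) (Fin (2 * g)) A[X]}
    (h : RelE g G H W P S M) :
    RelE g (G.map (mapRingHom φ)) (H.map (mapRingHom φ)) (W.map φ)
      (fun l => (P l).map (mapRingHom φ)) (fun l => (S l).map (mapRingHom φ))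
      (M.map (mapRingHom φ)) := by
  intro l
  obtain ⟨h1, h2, h3, h4⟩ := h l
  refine ⟨natDegree_map_le.trans h1, natDegree_map_le.trans h2, ?_, ?_⟩
  · have h5 := congrArg (fun q => Polynomial.map (mapRingHom φ) q) h3
    simp only [Polynomial.map_mul, Polynomial.map_add, Polynomial.map_C, Polynomial.map_ofNat,
      map_dt, map_bE, coe_mapRingHom] at h5
    rw [map_F, derivative_map]
    simp only [Polynomial.map_add]
    exact h5
  · have h5 := congrArg (fun q => Polynomial.map (mapRingHom φ) q) h4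
    simp only [Polynomial.map_mul, Polynomial.map_sub, Polynomial.map_C, Polynomial.map_ofNat,
      map_dt, map_bE, coe_mapRingHom, Polynomial.map_sum] at h5
    rw [derivative_map]
    exact h5

/-- The frame over the reductions. -/
theorem frameE (hHWb : H_HWb) (hHWiso : H_HWiso) (hHWrank : H_HWrank) {A : Type} [CommRing A]
    [IsDomain A] {g : ℕ} (hg : 1 ≤ g) {G H : A[X][X]} {D : Dat A g} {P S : Fin (2 * g) → A[X][X]}
    (hF : FamE g G H D P S) (hOk : D.Ok) :
    ∃ a₁ : A, a₁ ≠ 0 ∧ ∀ (p : ℕ) [Fact p.Prime] (k : Type) [Field k] [CharP k p] (φ : A →+* k),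
      2 * g + 2 < p → φ a₁ ≠ 0 → (D.map φ).Ok ∧
      (∀ i l, (D.map φ).W * derivative (YE p g (G.map (mapRingHom φ))
          ((G.map (mapRingHom φ)) ^ 2 + H.map (mapRingHom φ)) i l) =
        ∑ m, YE p g (G.map (mapRingHom φ))
          ((G.map (mapRingHom φ)) ^ 2 + H.map (mapRingHom φ)) i m * (D.map φ).M m l) ∧
      (∀ D' : Der (KX k), IsDer D' → ∀ i l,
        D' (((YE p g (G.map (mapRingHom φ))
          ((G.map (mapRingHom φ)) ^ 2 + H.map (mapRingHom φ))).map (ι k)) i l) =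
          ((YE p g (G.map (mapRingHom φ))
          ((G.map (mapRingHom φ)) ^ 2 + H.map (mapRingHom φ))).map (ι k) * (D.map φ).B) i l) ∧
      (∀ c : Fin g → KX k, c ᵥ* (YE p g (G.map (mapRingHom φ))
          ((G.map (mapRingHom φ)) ^ 2 + H.map (mapRingHom φ))).map (ι k) = 0 → c = 0) ∧
      (YE p g (G.map (mapRingHom φ))
          ((G.map (mapRingHom φ)) ^ 2 + H.map (mapRingHom φ))).map (ι k) * (D.map φ).QX *
        ((YE p g (G.map (mapRingHom φ))
          ((G.map (mapRingHom φ)) ^ 2 + H.map (mapRingHom φ))).map (ι k))ᵀ = 0 := by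
  classical
  obtain ⟨⟨hmon, hdeg, hdegH, hsep⟩, hRel, hQ⟩ := hF
  obtain ⟨a₂, ha₂, hok⟩ := w_okMap A g D hOk
  obtain ⟨u, v, r, hr, huv⟩ := sep_clear (G ^ 2 + H) hsep
  refine ⟨a₂ * r.leadingCoeff, mul_ne_zero ha₂ (leadingCoeff_ne_zero.2 hr),
    fun p _ k _ _ φ hp hφ => ?_⟩
  rw [map_mul] at hφ
  have hOk' := hok k φ (left_ne_zero_of_mul hφ)
  have hp2 : p ≠ 2 := by omega
  set G' := G.map (mapRingHom φ) with hG'
  set H' := H.map (mapRingHom φ) with hH'
  set P' : Fin (2 * g) → k[X][X] := fun l => (P l).map (mapRingHom φ) with hP'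
  set S' : Fin (2 * g) → k[X][X] := fun l => (S l).map (mapRingHom φ) with hS'
  have hRel' : RelE g G' H' (D.map φ).W P' S' (D.map φ).M := by
    rw [map_W]
    exact map_relE φ hRel
  have hQ' : ∀ m l, (D.map φ).Q m l = QE g G' H' m l := by
    intro m l
    show mapRingHom φ (D.Q m l) = _
    rw [hQ, map_QE]
  have hode : ∀ i l, (D.map φ).W * derivative (YE p g G' (G' ^ 2 + H') i l) =
        ∑ m, YE p g G' (G' ^ 2 + H') i m * (D.map φ).M m l := by
    intro i l
    exact hHWb k p hp2 g G' H' (D.map φ).W P' S' (D.map φ).M hRel' i l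
  have hW0 : (D.map φ).W ≠ 0 := by
    intro h0
    rcases mul_eq_zero.1 h0 with h1 | h1
    · exact X_sub_C_ne_zero _ h1
    · apply hOk'.2.2.2.2.2.2.1
      rw [h1, eval_zero]
  have hWι : ι k (D.map φ).W ≠ 0 := fun h0 => hW0 (ι_inj k (h0.trans (map_zero _).symm))
  have hmon' : G'.Monic := hmon.map _
  have hdeg' : G'.natDegree = g + 1 := by
    rw [hG', hmon.natDegree_map, hdeg]
  have hdegH' : H'.natDegree ≤ g := natDegree_map_le.trans hdegH
  have hmonX : (G'.map (ι k)).Monic := hmon'.map _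
  have hdegX : (G'.map (ι k)).natDegree = g + 1 := by
    rw [hmon'.natDegree_map, hdeg']
  have hdegHX : (H'.map (ι k)).natDegree ≤ g := natDegree_map_le.trans hdegH'
  have hYX : (YE p g G' (G' ^ 2 + H')).map (ι k) =
      YE p g (G'.map (ι k)) ((G'.map (ι k)) ^ 2 + H'.map (ι k)) := by
    rw [map_YE, Polynomial.map_add, Polynomial.map_pow]
  refine ⟨hOk', hode, fun D' hD' i l => ?_, fun c hc => ?_, ?_⟩
  · rw [Matrix.map_apply, hD', Matrix.mul_apply]
    apply mul_left_cancel₀ hWι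
    rw [← map_mul, hode, map_sum, Finset.mul_sum]
    refine Finset.sum_congr rfl fun m _ => ?_
    rw [Dat.B, Matrix.of_apply, map_mul, Matrix.map_apply]
    field_simp
  · refine hHWrank (KX k) p g (G'.map (ι k)) (H'.map (ι k)) hg hp hmonX hdegX hdegHX ?_ c ?_
    · have h1 : (G'.map (ι k)) ^ 2 + H'.map (ι k) = (G ^ 2 + H).map ((ι k).comp (mapRingHom φ)) := by
        rw [hG', hH', Polynomial.map_map, Polynomial.map_map, map_F]
      rw [h1]
      refine sep_map _ (G ^ 2 + H) u v r huv ?_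
      intro h0
      exact map_ne φ r (right_ne_zero_of_mul hφ) (ι_inj k (h0.trans (map_zero _).symm))
    · rw [← hYX]; exact hc
  · have h := hHWiso (KX k) p hp2 g (G'.map (ι k)) (H'.map (ι k)) hg hmonX hdegX hdegHX
    have hQX : (D.map φ).QX = QE g (G'.map (ι k)) (H'.map (ι k)) := by
      ext1 m l
      rw [Dat.QX, Matrix.map_apply, hQ', map_QE]
    rw [hYX, hQX]
    exact h

theorem h_FewG (hStep : S_Step) (hNV : W_NV) (hFrac : S_Frac) (hHWb : H_HWb)
    (hHWdeg : H_HWdeg) (hHWiso : H_HWiso) (hHWrank : H_HWrank) : H_FewG := by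
  intro g hg A _ _ _ _ G H D P S hF hOk hSt Γ hΓ ε hε
  classical
  obtain ⟨a₃, ha₃, hfr⟩ := frameE hHWb hHWiso hHWrank hg hF hOk
  obtain ⟨o1, o2, o3, o4, o5, o6, o7, -⟩ := id hOk
  have hWne : D.W ≠ 0 := by
    intro h0
    rcases mul_eq_zero.1 h0 with h1 | h1
    · exact X_sub_C_ne_zero _ h1
    · apply o7
      rw [h1, eval_zero]
  set Q2 : Matrix (Fin (2 * g)) (Fin (2 * g)) A[X] := (2 : A[X]) • D.Q with hQ2
  have hs0 : cs (g := g) Q2 ≠ 0 := by
    have h2 : (2 : A[X]) ≠ 0 := two_ne_zero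
    rw [cs]
    refine mul_ne_zero h2 ?_
    have h3 : Q2.submatrix (lo : Fin g → Fin (2 * g)) hi =
        (2 : A[X]) • D.Q.submatrix (lo : Fin g → Fin (2 * g)) hi := rfl
    rw [h3, Matrix.det_smul, o4]
    refine mul_ne_zero (pow_ne_zero _ h2) ?_
    rwa [Ne, Polynomial.C_eq_zero]
  set d := Γ.totalDegree with hd
  set s := cs (g := g) Q2 with hs
  set qh := s * D.W with hqh
  have hq0 : qh ≠ 0 := mul_ne_zero hs0 hWne
  set bh : Matrix (Fin (2 * g)) (Fin (2 * g)) A[X] := Matrix.of fun m l =>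
    (if m = l then D.W * derivative s else 0) + s * D.M m l with hbh
  have hη₀ : (MvPolynomial.C s : MvPolynomial (Vars g) A[X]) ^ d *
      MvPolynomial.rename (Sum.inl : Fin g × Fin g → Vars g) Γ ≠ 0 := by
    refine mul_ne_zero (pow_ne_zero _ ?_) ?_
    · rwa [Ne, MvPolynomial.C_eq_zero]
    · intro h0
      apply hΓ
      apply MvPolynomial.rename_injective _ Sum.inl_injective
      rw [h0, map_zero]
  set N := max (G.support.sup fun i => (G.coeff i).natDegree)
    (H.support.sup fun i => (H.coeff i).natDegree) with hN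
  have hNG : ∀ i, (G.coeff i).natDegree ≤ N := by
    intro i
    by_cases hj : i ∈ G.support
    · exact (Finset.le_sup (f := fun i => (G.coeff i).natDegree) hj).trans (le_max_left _ _)
    · rw [notMem_support_iff.1 hj, natDegree_zero]
      exact Nat.zero_le _
  have hNH : ∀ i, (H.coeff i).natDegree ≤ N := by
    intro i
    by_cases hj : i ∈ H.support
    · exact (Finset.le_sup (f := fun i => (H.coeff i).natDegree) hj).trans (le_max_right _ _)
    · rw [notMem_support_iff.1 hj, natDegree_zero]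
      exact Nat.zero_le _
  obtain ⟨e, A₀, β, p₁, a₁, ha₁, hst⟩ := stepJ hStep A (Vars g) (Jd g (2 * g) d)
    ((MvPolynomial.C s) ^ d * MvPolynomial.rename (Sum.inl : Fin g × Fin g → Vars g) Γ)
    (fun m => ∏ x, (Rm Q2 x.1 x.2) ^ m.1 x) hη₀ qh (M0 s qh bh Γ) (Mm bh) hq0 ε hε
    ((univ.sup fun m : Jd g (2 * g) d => (Fc s Γ m).natDegree) + d * (s.natDegree + N))
  set Dm := univ.sup fun m : Jd g (2 * g) d => (Fc s Γ m).natDegree with hDm
  obtain ⟨p₂, a₂, ha₂, hnv⟩ := hNV g hg A D hOk hSt e A₀ β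
  refine ⟨p₁ + p₂ + 2 * g + 3, a₁ * a₂ * a₃, mul_ne_zero (mul_ne_zero ha₁ ha₂) ha₃, ?_⟩
  intro p _ k _ _ φ hp hφ T hT
  rw [map_mul, map_mul] at hφ
  have hφ₁ := left_ne_zero_of_mul (left_ne_zero_of_mul hφ)
  have hφ₂ := right_ne_zero_of_mul (left_ne_zero_of_mul hφ)
  have hφ₃ := right_ne_zero_of_mul hφ
  obtain ⟨hOk', hode', hor, hrk, hI⟩ := hfr p k φ (by omega) hφ₃
  have hp2 : p ≠ 2 := by omega
  have h2 : (2 : KX k) ≠ 0 := by
    have := two_neK (k := k) p 2 (by norm_num) (by omega)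
    exact_mod_cast this
  obtain ⟨D', hD', -⟩ := hFrac k
  have hdYp : ∀ i l, (YE p g (G.map (mapRingHom φ))
      ((G.map (mapRingHom φ)) ^ 2 + H.map (mapRingHom φ)) i l).natDegree ≤ N * p := by
    intro i l
    refine hHWdeg k p g N (G.map (mapRingHom φ)) (H.map (mapRingHom φ)) (by omega) ?_ ?_ i l
    · intro j
      rw [coeff_map, coe_mapRingHom]
      exact natDegree_map_le.trans (hNG j)
    · intro j
      rw [coeff_map, coe_mapRingHom]
      exact natDegree_map_le.trans (hNH j)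
  have hYY : ∀ x : Fin g × Fin g, Yh p g g ((G ^ 2 + H).map (mapRingHom φ)) x.1 x.2 =
      YE p g (G.map (mapRingHom φ))
        ((G.map (mapRingHom φ)) ^ 2 + H.map (mapRingHom φ)) x.1 (lo x.2) := by
    intro x
    have hb : bE g (G.map (mapRingHom φ)) (lo x.2) = X ^ (x.2 : ℕ) := by
      unfold bE
      exact if_pos x.2.2
    rw [YE, Matrix.of_apply, Yh, Matrix.of_apply, hb, map_F]
  obtain ⟨Yp, hYp⟩ : ∃ Yp, Yp = YE p g (G.map (mapRingHom φ))
    ((G.map (mapRingHom φ)) ^ 2 + H.map (mapRingHom φ)) := ⟨_, rfl⟩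
  rw [← hYp] at hode' hor hrk hI hdYp hYY
  set Y := Yp.map (ι k) with hY
  obtain ⟨hYdet, hNVp⟩ := hnv p k φ (by omega) hφ₂ D' hD' Y (hor D' hD') hrk hI
  have hQ22' : ((D.map φ).QX).submatrix (hi : Fin g → Fin (2 * g)) hi = 0 := by
    ext1 i j
    have := congrFun (congrFun hOk'.2.1 i) j
    rw [Matrix.submatrix_apply, Matrix.zero_apply] at this
    rw [Matrix.submatrix_apply, Dat.QX, Matrix.map_apply, this, map_zero, Matrix.zero_apply]
  have hQa' : ((D.map φ).QX)ᵀ = -(D.map φ).QX := by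
    ext1 i j
    have := congrFun (congrFun hOk'.1 i) j
    rw [Matrix.transpose_apply, Matrix.neg_apply] at this
    rw [Matrix.transpose_apply, Dat.QX, Matrix.map_apply, this, map_neg, Matrix.neg_apply,
      Matrix.map_apply]
  set bh' : Matrix (Fin (2 * g)) (Fin (2 * g)) k[X] := Matrix.of fun m l =>
    (if m = l then (D.map φ).W * derivative (s.map φ) else 0) +
      s.map φ * (D.map φ).M m l with hbh'
  have hbφ : ∀ l m, (bh l m).map φ = bh' l m := by
    intro l m
    rw [hbh, hbh', Matrix.of_apply, Matrix.of_apply, Polynomial.map_add, Polynomial.map_mul]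
    split_ifs
    · rw [Polynomial.map_mul, ← derivative_map, map_W]
      rfl
    · rw [Polynomial.map_zero]
      rfl
  have hode : ∀ i l, qh.map φ * derivative (((s.map φ) • Yp) i l) =
      ∑ m, ((s.map φ) • Yp) i m * bh' m l := by
    intro i l
    rw [hqh, Polynomial.map_mul, ← map_W]
    exact ode2 (s.map φ) _ (D.map φ).M Yp hode' i l
  have hZ₀ := sum_Fc (d := d) φ s Γ le_rfl Yp
  have hdY : ∀ i l, (((s.map φ) • Yp) i l).natDegree ≤ (s.natDegree + N) * p := by
    intro i l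
    rw [Matrix.smul_apply, smul_eq_mul]
    refine natDegree_mul_le.trans ?_
    have h1 : (Yp i l).natDegree ≤ N * p := hdYp i l
    have h3 : (s.map φ).natDegree ≤ s.natDegree := natDegree_map_le
    have h4 : s.natDegree ≤ s.natDegree * p := Nat.le_mul_of_pos_right _ (by omega)
    rw [add_mul]
    omega
  have hdm : ∀ m : Jd g (2 * g) d, (mon ((s.map φ) • Yp) m.1).natDegree ≤
        d * (s.natDegree + N) * p := by
    intro m
    refine (natDegree_mon _ _ hdY m.1).trans ?_
    rw [mul_assoc]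
    exact Nat.mul_le_mul_right _ m.2
  refine hst p k φ (by omega) hφ₁ ((s.map φ) ^ d * MvPolynomial.eval₂ (mapRingHom φ)
    (fun x : Fin g × Fin g => Yp x.1 (lo x.2)) Γ)
    (fun m => mon ((s.map φ) • Yp) m.1) (frv (D.map φ).QX Y)
    ?_ ?_ ?_ ?_ ?_ ?_ hNVp T ?_
  · rw [map_mul, map_pow, MvPolynomial.eval₂_mul, MvPolynomial.eval₂_pow, MvPolynomial.eval₂_C,
      MvPolynomial.eval₂_rename, MvPolynomial.eval₂_comp_left]
    rfl
  · intro m
    have h1 : ∀ x : Fin g × Fin (2 * g), MvPolynomial.eval₂ ((ι k).comp (mapRingHom φ))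
        (frv (D.map φ).QX Y) (Rm Q2 x.1 x.2) = ι k (((s.map φ) • Yp) x.1 x.2) := by
      intro x
      have h3 := eval_Rm ((ι k).comp (mapRingHom φ)) Q2 h2 (D.map φ).QX
        Y hQa' hQ22' hYdet hI ?_ x.1 x.2
      · rw [h3, Matrix.smul_apply, smul_eq_mul, map_mul]
        rfl
      · intro l m
        rw [hQ2, Matrix.smul_apply, smul_eq_mul, map_mul, map_ofNat]
        rfl
    rw [mon, map_prod, ← MvPolynomial.coe_eval₂Hom, map_prod]
    refine Finset.prod_congr rfl fun x _ => ?_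
    rw [map_pow, map_pow, MvPolynomial.coe_eval₂Hom, h1]
  · rw [hZ₀]
    exact ode_zero φ s qh bh bh' hbφ Γ _ hode
  · intro m
    rw [mon_ode' _ _ _ hode m]
    refine Finset.sum_congr rfl fun m' _ => ?_
    rw [map_Mm φ bh bh' hbφ]
  · rw [hZ₀, add_mul]
    refine natDegree_sum_le_of_forall_le _ _ fun m _ => ?_
    refine natDegree_mul_le.trans (Nat.add_le_add ?_ (hdm m))
    have h1 : ((Fc s Γ m).map φ).natDegree ≤ Dm := by
      refine natDegree_map_le.trans ?_
      exact Finset.le_sup (f := fun m : Jd g (2 * g) d => (Fc s Γ m).natDegree) (Finset.mem_univ m)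
    exact h1.trans (Nat.le_mul_of_pos_right _ (by omega))
  · intro m
    refine (hdm m).trans ?_
    rw [add_mul]
    exact Nat.le_add_left _ _
  · intro t ht
    obtain ⟨h1, h3⟩ := hT t ht
    refine ⟨h1, ?_⟩
    rw [eval_mul]
    have h4 : eval t (MvPolynomial.eval₂ (mapRingHom φ)
        (fun x : Fin g × Fin g => Yp x.1 (lo x.2)) Γ) = 0 := by
      rw [← coe_evalRingHom, MvPolynomial.eval₂_comp_left]
      refine Eq.trans ?_ h3
      congr 1
      funext x
      rw [hYY]
      rfl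
    rw [h4, mul_zero]

end Pool.Agent.Helper36.HX
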